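import Mathlib

set_option autoImplicit false

namespace Pool.Agent.Lib.MP_462fed_al

open Matrix Matrix.SpecialLinearGroup
open scoped MatrixGroups LinearAlgebra.Projectivization commutatorElement

variable {ι F : Type*} [Fintype ι] [DecidableEq ι] [Field F]

lemma transvection_smul_apply {i j : ι} (hij : i ≠ j) (b : F) (v : ι → F) (k : ι) :
    (transvection hij b • v) k = v k + if k = i then b * v j else 0 := by
  change ((transvection hij b).1 *ᵥ v) k = _
  rw [transvection_coe, add_mulVec, one_mulVec, single_mulVec_eq]
  by_cases hk : k = i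
  · subst hk; simp
  · simp [hk]

lemma diag2n_smul_apply {i j : ι} (hij : i ≠ j) (a : F) (ha : a ≠ 0) (v : ι → F) (k : ι) :
    (diag2n hij a ha • v) k = (if k = i then a else if k = j then a⁻¹ else 1) * v k := by
  change ((diag2n hij a ha).1 *ᵥ v) k = _
  rw [diag2n_coe, mulVec_diagonal]

lemma sl_ext {A B : SpecialLinearGroup ι F} (h : ∀ v : ι → F, A • v = B • v) : A = B :=
  Subtype.ext <| ext_iff_smul.2 h

lemma diag2n_decompose {i j : ι} (hij : i ≠ j) (a : F) (ha : a ≠ 0) :
    diag2n hij a ha = transvection hij a * transvection hij.symm (- a⁻¹) *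
      transvection hij a * transvection hij (-1) * transvection hij.symm 1 *
      transvection hij (-1) := by
  apply sl_ext
  intro v
  funext k
  simp only [mul_smul, transvection_smul_apply, diag2n_smul_apply]
  by_cases hi : k = i
  · subst hi
    simp [hij, hij.symm]
    field_simp
    ring
  · by_cases hj : k = j
    · subst hj
      simp [hij, hij.symm]
      field_simp
      ring
    · simp [hi, hj]

theorem transvection_induction [Nontrivial ι] (P : SpecialLinearGroup ι F → Prop)
    (htransvec : ∀ (i j : ι) (h : i ≠ j) c, P (transvection h c))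
    (hmul : ∀ A B, P A → P B → P (A * B)) (A : SpecialLinearGroup ι F) : P A := by
  refine diagonal_transvection_induction' P _ (fun i j hij c hc ↦ ?_) htransvec hmul
  rw [diag2n_decompose hij c hc]
  refine hmul _ _ (hmul _ _ (hmul _ _ (hmul _ _ (hmul _ _ ?_ ?_) ?_) ?_) ?_) ?_
  all_goals exact htransvec _ _ _ _

lemma transvection_commutator {i j k : ι} (hij : i ≠ j) (hik : i ≠ k) (hkj : k ≠ j) (a b : F) :
    ⁅transvection hik a, transvection hkj b⁆ = transvection hij (a * b) := by
  rw [commutatorElement_def, transvection_inv, transvection_inv]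
  apply sl_ext
  intro v
  funext l
  simp only [mul_smul, transvection_smul_apply]
  by_cases hi : l = i
  · subst hi
    simp [hij, hik, hkj, hij.symm, hik.symm, hkj.symm]
    ring
  · by_cases hk : l = k
    · subst hk
      simp [hij, hik, hkj, hij.symm, hik.symm, hkj.symm]
    · simp [hi, hk]

theorem commutator_eq_top (hι : ∀ i j : ι, ∃ k, k ≠ i ∧ k ≠ j) [Nontrivial ι] :
    commutator (SpecialLinearGroup ι F) = ⊤ := by
  refine le_antisymm le_top (fun A _ ↦ transvection_induction _ ?_ (fun _ _ ↦ mul_mem) A)
  intro i j hij c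
  obtain ⟨k, hki, hkj⟩ := hι i j
  rw [← mul_one c, ← transvection_commutator hij hki.symm hkj c 1]
  exact Subgroup.commutator_mem_commutator (Subgroup.mem_top _) (Subgroup.mem_top _)

lemma transvection_mem_lineStab {i j : ι} (hij : i ≠ j) (b : F) :
    transvection hij b ∈ lineStab (Submodule.span F {(Pi.single i (1 : F) : ι → F)}) :=
  fun w ↦ Submodule.mem_span_singleton.2 ⟨b * w j, by simp [mul_smul,
    Matrix.SpecialLinearGroup.smul_def, transvection_coe, add_smul, Matrix.single_mulVec_eq]⟩

lemma iSup_lineStab_eq_top [Nontrivial ι] :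
    (⨆ p : ℙ F (ι → F), lineStab p.submodule) = (⊤ : Subgroup (SpecialLinearGroup ι F)) := by
  refine le_antisymm le_top (fun A _ ↦ transvection_induction _ ?_ (fun _ _ ↦ mul_mem) A)
  intro i j hij c
  have h0 : (Pi.single i (1 : F) : ι → F) ≠ 0 := Pi.single_ne_zero_iff.2 one_ne_zero
  have h1 := transvection_mem_lineStab hij c
  rw [← Projectivization.submodule_mk (K := F) _ h0] at h1
  exact Subgroup.mem_iSup_of_mem _ h1

lemma iSup_iwasawaT_eq_top [Nontrivial ι] :
    iSup (PSL.iwasawaT (F := F) (ι := ι)) = ⊤ := by
  have step1 : iSup (PSL.iwasawaT (F := F) (ι := ι)) =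
      Subgroup.map (QuotientGroup.mk' (Subgroup.center (Matrix.SpecialLinearGroup ι F)))
        (⨆ p : ℙ F (ι → F),
          Matrix.SpecialLinearGroup.lineStab (F := F) (ι := ι) p.submodule) := by
    rw [Subgroup.map_iSup]
  rw [step1, iSup_lineStab_eq_top]
  exact Subgroup.map_top_of_surjective _ (QuotientGroup.mk'_surjective _)

open MulAction

/-- The Iwasawa structure of the projective special linear group on the projective space. -/
noncomputable def iwasawa [Nontrivial ι] :
    IwasawaStructure (ProjectiveSpecialLinearGroup ι F) (ℙ F (ι → F)) where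
  T := PSL.iwasawaT
  is_comm p := by
    have hSL : IsMulCommutative (lineStab (F := F) (ι := ι) p.submodule) := by
      rw [← Projectivization.mk_rep p, Projectivization.submodule_mk]
      exact lineStab_isMulCommutative_of_span p.rep p.rep_nonzero
    exact Subgroup.map_isMulCommutative _ _
  is_conj g p := by
    obtain ⟨g_SL, rfl⟩ := QuotientGroup.mk_surjective g
    rw [Matrix.ProjectiveSpecialLinearGroup.smul_proj_mk]
    change Subgroup.map _ _ = _
    rw [PSL.smul_submodule, Matrix.SpecialLinearGroup.lineStab_smul,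
      PSL.iwasawaT_map_conj]
  is_generator := iSup_iwasawaT_eq_top

theorem isSimpleGroup_PSL (hι : ∀ i j : ι, ∃ k, k ≠ i ∧ k ≠ j) [Nontrivial ι] :
    IsSimpleGroup (ProjectiveSpecialLinearGroup ι F) := by
  have h1 : Group.IsPerfect (SpecialLinearGroup ι F) := ⟨commutator_eq_top hι⟩
  have h2 : Group.IsPerfect (ProjectiveSpecialLinearGroup ι F) := inferInstance
  exact MulAction.IwasawaStructure.isSimpleGroup h2.commutator_eq_top iwasawa inferInstance

end Pool.Agent.Lib.MP_462fed_al
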