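import Mathlib
import Pool.Agent.Lib.MP_462fed_al.PSLSimple

set_option autoImplicit false

namespace Pool.Agent.Lib.MP_462fed_al

open Matrix Matrix.SpecialLinearGroup
open scoped MatrixGroups LinearAlgebra.Projectivization commutatorElement

variable {ι F : Type*} [Fintype ι] [DecidableEq ι] [Field F]

lemma isConj_left {i j k : ι} (hij : i ≠ j) (hik : i ≠ k) (hkj : k ≠ j) :
    IsConj (transvection hkj (1 : F)) (transvection hij 1) := by
  rw [isConj_iff]
  refine ⟨transvection hik 1 * transvection hik.symm (-1) * transvection hik 1, ?_⟩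
  rw [mul_inv_eq_iff_eq_mul]
  apply sl_ext
  intro v
  funext l
  simp only [mul_smul, transvection_smul_apply]
  by_cases hi : l = i
  · subst hi
    simp [hij, hik, hij.symm, hik.symm, hkj.symm]
    ring
  · by_cases hk : l = k
    · subst hk
      simp [hij, hij.symm, hik.symm, hkj.symm]
      rw [if_neg hik]
      ring
    · simp [hi, hk]

lemma isConj_right {i j k : ι} (hij : i ≠ j) (hik : i ≠ k) (hkj : k ≠ j) :
    IsConj (transvection hij (1 : F)) (transvection hik 1) := by
  rw [isConj_iff]
  refine ⟨transvection hkj 1 * transvection hkj.symm (-1) * transvection hkj 1, ?_⟩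
  rw [mul_inv_eq_iff_eq_mul]
  apply sl_ext
  intro v
  funext l
  simp only [mul_smul, transvection_smul_apply]
  by_cases hi : l = i
  · subst hi
    simp [hij, hik, hkj, hij.symm, hik.symm, hkj.symm]
  · by_cases hk : l = k
    · subst hk
      simp [hij, hik, hkj, hij.symm, hik.symm, hkj.symm]
    · by_cases hj : l = j
      · subst hj
        simp [hij, hik, hkj, hij.symm, hik.symm, hkj.symm]
      · simp [hi, hk, hj]

lemma isConj_all (hι : ∀ i j : ι, ∃ k, k ≠ i ∧ k ≠ j) {a b i j : ι} (hab : a ≠ b)
    (hij : i ≠ j) : IsConj (transvection hab (1 : F)) (transvection hij 1) := by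
  -- first change the column index, then the row index
  have key : ∀ (c : ι) (hcb : c ≠ b), c ≠ j → ∀ hcj : c ≠ j,
      IsConj (transvection hcb (1 : F)) (transvection hcj 1) := by
    intro c hcb _ hcj
    by_cases hbj : b = j
    · subst hbj
      exact IsConj.refl _
    · exact isConj_right hcb hcj (fun h => hbj h.symm)
  have key2 : ∀ (c : ι) (hcj : c ≠ j), IsConj (transvection hcj (1 : F)) (transvection hij 1) := by
    intro c hcj
    by_cases hci : c = i
    · subst hci
      exact IsConj.refl _
    · exact isConj_left hij (fun h => hci h.symm) hcj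
  by_cases haj : a = j
  · subst haj
    obtain ⟨k, hka, hkb⟩ := hι a b
    have h1 : IsConj (transvection hab (1 : F)) (transvection hkb 1) :=
      isConj_left hkb hka hab
    exact (h1.trans (key k hkb hka hka)).trans (key2 k hka)
  · exact (key a hab haj haj).trans (key2 a haj)

lemma transvection_pow {i j : ι} (hij : i ≠ j) (b : F) (k : ℕ) :
    transvection hij b ^ k = transvection hij (k * b) := by
  induction k with
  | zero => simp
  | succ k ih =>
    rw [pow_succ, ih, ← transvection_add]
    congr 1
    push_cast
    ring

/-- Over a prime field, the transvections with parameter one generate. -/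
lemma eq_top_of_transvection_one_mem [Nontrivial ι] {p : ℕ} [Fact p.Prime]
    (H : Subgroup (SpecialLinearGroup ι (ZMod p)))
    (h : ∀ (i j : ι) (hij : i ≠ j), transvection hij (1 : ZMod p) ∈ H) : H = ⊤ := by
  refine le_antisymm le_top (fun A _ ↦ transvection_induction _ ?_ (fun _ _ ↦ mul_mem) A)
  intro i j hij c
  have h1 : transvection hij c = transvection hij (1 : ZMod p) ^ c.val := by
    rw [transvection_pow, mul_one, ZMod.natCast_zmod_val]
  rw [h1]
  exact pow_mem (h i j hij) _

end Pool.Agent.Lib.MP_462fed_al
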