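import Mathlib
import Pool.Agent.Lib.MP_462fed_al.Conj

set_option autoImplicit false

namespace Pool.Agent.Lib.MP_462fed_al

open Matrix Matrix.SpecialLinearGroup
open scoped MatrixGroups LinearAlgebra.Projectivization commutatorElement

/-- The cyclic successor on `Fin n`. -/
def nxt {n : ℕ} (i : Fin n) : Fin n :=
  if h : i.1 + 1 < n then ⟨i.1 + 1, h⟩ else ⟨0, lt_of_le_of_lt (Nat.zero_le _) i.2⟩

lemma nxt_ne {n : ℕ} (hn : 2 ≤ n) (i : Fin n) : i ≠ nxt i := by
  unfold nxt
  split_ifs with h
  · intro h1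
    have := congrArg Fin.val h1
    simp at this
  · intro h1
    have := congrArg Fin.val h1
    simp at this
    omega

lemma cyclic_generate {n : ℕ} (hn : 3 ≤ n) {p : ℕ} [Fact p.Prime]
    (H : Subgroup (SpecialLinearGroup (Fin n) (ZMod p)))
    (h : ∀ i : Fin n, transvection (nxt_ne (by omega) i) (1 : ZMod p) ∈ H) : H = ⊤ := by
  have : Nontrivial (Fin n) := Fin.nontrivial_iff_two_le.2 (by omega)
  apply eq_top_of_transvection_one_mem
  have hcomm : ∀ {i j k : Fin n} (hij : i ≠ j) (hik : i ≠ k) (hkj : k ≠ j),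
      transvection hik (1 : ZMod p) ∈ H → transvection hkj (1 : ZMod p) ∈ H →
      transvection hij (1 : ZMod p) ∈ H := by
    intro i j k hij hik hkj h1 h2
    have h3 := transvection_commutator hij hik hkj (1 : ZMod p) 1
    rw [mul_one] at h3
    rw [← h3, commutatorElement_def]
    exact mul_mem (mul_mem (mul_mem h1 h2) (inv_mem h1)) (inv_mem h2)
  -- upper triangular ones
  have hup : ∀ (d i j : ℕ) (hi : i < n) (hj : j < n) (hij : (⟨i, hi⟩ : Fin n) ≠ ⟨j, hj⟩),
      j = i + d + 1 → transvection hij (1 : ZMod p) ∈ H := by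
    intro d
    induction d with
    | zero =>
      intro i j hi hj hij hd
      have h1 := h ⟨i, hi⟩
      have h2 : nxt (⟨i, hi⟩ : Fin n) = ⟨j, hj⟩ := by
        unfold nxt
        rw [dif_pos (by simp; omega)]
        simp; omega
      convert h1 using 2
      exact h2.symm
    | succ d ih =>
      intro i j hi hj hij hd
      have hk : i + d + 1 < n := by omega
      have hik : (⟨i, hi⟩ : Fin n) ≠ ⟨i + d + 1, hk⟩ := by
        intro h1; have := congrArg Fin.val h1; simp at this; omega
      have hkj : (⟨i + d + 1, hk⟩ : Fin n) ≠ ⟨j, hj⟩ := by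
        intro h1; have := congrArg Fin.val h1; simp at this; omega
      refine hcomm hij hik hkj (ih i (i + d + 1) hi hk hik rfl) ?_
      have h1 := h ⟨i + d + 1, hk⟩
      have h2 : nxt (⟨i + d + 1, hk⟩ : Fin n) = ⟨j, hj⟩ := by
        unfold nxt
        rw [dif_pos (by simp; omega)]
        simp; omega
      convert h1 using 2
      exact h2.symm
  have hup' : ∀ (i j : Fin n) (hij : i ≠ j), i < j → transvection hij (1 : ZMod p) ∈ H := by
    intro i j hij hlt
    exact hup (j.1 - i.1 - 1) i.1 j.1 i.2 j.2 hij (by have : i.1 < j.1 := hlt; omega)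
  -- the corner
  have hlast : (n - 1) < n := by omega
  have hzero : 0 < n := by omega
  have hcorner : ∀ (hne : (⟨n - 1, hlast⟩ : Fin n) ≠ ⟨0, hzero⟩),
      transvection hne (1 : ZMod p) ∈ H := by
    intro hne
    have h1 := h ⟨n - 1, hlast⟩
    have h2 : nxt (⟨n - 1, hlast⟩ : Fin n) = ⟨0, hzero⟩ := by
      unfold nxt
      rw [dif_neg (by simp; omega)]
    convert h1 using 2
    exact h2.symm
  -- first column
  have hcol : ∀ (i : Fin n) (hne : i ≠ ⟨0, hzero⟩), transvection hne (1 : ZMod p) ∈ H := by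
    intro i hne
    by_cases hi : i = ⟨n - 1, hlast⟩
    · subst hi
      exact hcorner hne
    · have hl : (⟨n - 1, hlast⟩ : Fin n) ≠ ⟨0, hzero⟩ := by
        intro h1; have := congrArg Fin.val h1; simp at this; omega
      refine hcomm hne hi hl (hup' _ _ _ ?_) (hcorner hl)
      rw [Fin.lt_def]
      have h3 : i.1 ≠ n - 1 := fun h4 => hi (Fin.ext h4)
      simp only
      omega
  intro i j hij
  rcases lt_or_gt_of_ne hij with hlt | hgt
  · exact hup' i j hij hlt
  · by_cases hj : j = ⟨0, hzero⟩
    · subst hj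
      exact hcol i hij
    · have hi : i ≠ ⟨0, hzero⟩ := by
        rintro rfl
        rw [Fin.lt_def] at hgt
        simp at hgt
      refine hcomm hij hi (fun h => hj h.symm) (hcol i hi) (hup' _ _ _ ?_)
      rw [Fin.lt_def]
      have h3 : j.1 ≠ 0 := fun h4 => hj (Fin.ext h4)
      simp only
      omega

end Pool.Agent.Lib.MP_462fed_al
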