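import Mathlib
import Pool.Agent.Lib.MP_462fed_al.Gen

set_option autoImplicit false

namespace Pool.Agent.Lib.MP_462fed_al

open Matrix Matrix.SpecialLinearGroup MulAction
open scoped MatrixGroups LinearAlgebra.Projectivization commutatorElement

/-- An element of prime order `r` of `SL_{r-1}(p)`, with `p` a primitive root modulo `r`, fixes no
nonzero vector. -/
lemma eq_one_of_fix {p r : ℕ} [Fact p.Prime] [hr : Fact r.Prime]
    (hp : orderOf (p : ZMod r) = r - 1) (g : SpecialLinearGroup (Fin (r - 1)) (ZMod p))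
    (hg : g ^ r = 1) (v : Fin (r - 1) → ZMod p) (hv : v ≠ 0) (hgv : g • v = v) : g = 1 := by
  classical
  have hr2 := hr.out.two_le
  let V := Fin (r - 1) → ZMod p
  let H : Subgroup (SpecialLinearGroup (Fin (r - 1)) (ZMod p)) := Subgroup.zpowers g
  have hH : IsPGroup r H := by
    intro x
    refine ⟨1, ?_⟩
    obtain ⟨k, hk⟩ := x.2
    apply Subtype.ext
    simp only [pow_one, Subgroup.coe_pow, Subgroup.coe_one]
    rw [← hk]
    simp only
    rw [← _root_.zpow_natCast, ← _root_.zpow_mul, mul_comm, _root_.zpow_mul, _root_.zpow_natCast,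
      hg, _root_.one_zpow]
  let W : Submodule (ZMod p) V :=
    { carrier := {w | g • w = w}
      add_mem' := by
        intro a b ha hb
        change g • (a + b) = a + b
        rw [smul_add]
        rw [show g • a = a from ha, show g • b = b from hb]
      zero_mem' := smul_zero g
      smul_mem' := by
        intro c x hx
        change g • (c • x) = c • x
        rw [smul_comm, show g • x = x from hx] }
  have hfix : fixedPoints H V = (W : Set V) := by
    ext w
    constructor
    · intro hw
      exact hw ⟨g, Subgroup.mem_zpowers g⟩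
    · intro hw x
      have hw' : g ∈ stabilizer (SpecialLinearGroup (Fin (r - 1)) (ZMod p)) w := hw
      have h1 : H ≤ stabilizer (SpecialLinearGroup (Fin (r - 1)) (ZMod p)) w := by
        rw [Subgroup.zpowers_le]
        exact hw'
      exact h1 x.2
  have hmod := hH.card_modEq_card_fixedPoints V
  rw [hfix] at hmod
  have hcardV : Nat.card V = p ^ (r - 1) := by
    rw [Nat.card_eq_fintype_card]
    simp [V, ZMod.card]
  have hcardW : Nat.card (W : Set V) = p ^ (Module.finrank (ZMod p) W) := by
    have := Module.natCard_eq_pow_finrank (K := ZMod p) (V := W)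
    rw [Nat.card_zmod] at this
    exact this
  rw [hcardV, hcardW] at hmod
  have hkpos : 0 < Module.finrank (ZMod p) W := by
    rw [Module.finrank_pos_iff, Submodule.nontrivial_iff_ne_bot]
    intro hbot
    apply hv
    have : v ∈ W := hgv
    rw [hbot] at this
    simpa using this
  have hkle : Module.finrank (ZMod p) W ≤ r - 1 := by
    have := Submodule.finrank_le W
    simpa [V] using this
  set k := Module.finrank (ZMod p) W with hk
  have hpu : IsUnit (p : ZMod r) := by
    apply IsUnit.of_pow_eq_one (n := r - 1)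
    · rw [← hp]; exact pow_orderOf_eq_one _
    · have : 0 < r - 1 := by omega
      omega
  have hmod' : ((p : ZMod r)) ^ (r - 1) = (p : ZMod r) ^ k := by
    have := (ZMod.natCast_eq_natCast_iff _ _ _).2 hmod
    push_cast at this
    exact this
  have h1 : (p : ZMod r) ^ (r - 1 - k) = 1 := by
    have h2 : (p : ZMod r) ^ (r - 1 - k) * (p : ZMod r) ^ k = (p : ZMod r) ^ k := by
      rw [← pow_add, Nat.sub_add_cancel hkle, hmod']
    have h3 : IsUnit ((p : ZMod r) ^ k) := hpu.pow k
    exact h3.mul_right_cancel (h2.trans (one_mul _).symm)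
  have h2 : r - 1 ∣ r - 1 - k := by
    rw [← hp, orderOf_dvd_iff_pow_eq_one, hp]
    exact h1
  have h3 : r - 1 - k = 0 := by
    by_contra h
    have := Nat.le_of_dvd (by omega) h2
    omega
  have h4 : W = ⊤ := by
    apply Submodule.eq_top_of_finrank_eq
    rw [← hk]
    simp [V]
    omega
  apply sl_ext
  intro w
  have : w ∈ W := by rw [h4]; trivial
  rw [one_smul]
  exact this

/-- Fewer than `n` conjugates of a transvection of `SL_n` fix a common nonzero vector. -/
lemma exists_common_fixed {n m : ℕ} {F : Type*} [Field F] (hmn : m < n) {a b : Fin n} (hab : a ≠ b)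
    (A : Fin m → SpecialLinearGroup (Fin n) F) :
    ∃ v : Fin n → F, v ≠ 0 ∧ ∀ i, (A i * transvection hab 1 * (A i)⁻¹) • v = v := by
  let L : (Fin n → F) →ₗ[F] (Fin m → F) :=
    { toFun := fun v i => ((A i)⁻¹ • v) b
      map_add' := by
        intro x y
        funext i
        simp [smul_add]
      map_smul' := by
        intro c x
        funext i
        simp [smul_comm _ c x] }
  have hker : LinearMap.ker L ≠ ⊥ := LinearMap.ker_ne_bot_of_finrank_lt (by simpa using hmn)
  obtain ⟨v, hv, hv0⟩ := Submodule.exists_mem_ne_zero_of_ne_bot hker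
  refine ⟨v, hv0, ?_⟩
  intro i
  have h1 : ((A i)⁻¹ • v) b = 0 := congrFun (LinearMap.mem_ker.1 hv) i
  have h2 : transvection hab (1 : F) • ((A i)⁻¹ • v) = (A i)⁻¹ • v := by
    funext k
    rw [transvection_smul_apply, h1]
    simp
  rw [mul_smul, mul_smul, h2, smul_inv_smul]

/-- An element of order `r` in `SL_{r-1}(p)`. -/
lemma exists_order {p r : ℕ} [Fact p.Prime] [hr : Fact r.Prime] (hr3 : 3 < r)
    (hp : orderOf (p : ZMod r) = r - 1) :
    ∃ g : SpecialLinearGroup (Fin (r - 1)) (ZMod p), g ^ r = 1 ∧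
      g ∉ Subgroup.center (SpecialLinearGroup (Fin (r - 1)) (ZMod p)) := by
  classical
  have hp2 := (Fact.out : p.Prime).two_le
  have hcop : Nat.Coprime r (p - 1) := by
    rw [Nat.Prime.coprime_iff_not_dvd hr.out]
    intro hdvd
    have h1 : ((p - 1 : ℕ) : ZMod r) = 0 := (ZMod.natCast_eq_zero_iff _ _).2 hdvd
    rw [Nat.cast_sub (by omega), Nat.cast_one, sub_eq_zero] at h1
    rw [h1, orderOf_one] at hp
    omega
  have hunit : ∀ a : ZMod p, a ^ r = 1 → a = 1 := by
    intro a ha
    have ha0 : a ≠ 0 := by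
      rintro rfl
      rw [zero_pow (by omega)] at ha
      exact zero_ne_one ha
    have h1 : a ^ (p - 1) = 1 := ZMod.pow_card_sub_one_eq_one ha0
    have h2 : orderOf a ∣ r := orderOf_dvd_of_pow_eq_one ha
    have h3 : orderOf a ∣ p - 1 := orderOf_dvd_of_pow_eq_one h1
    have h4 : orderOf a ∣ 1 := by
      rw [← hcop]
      exact Nat.dvd_gcd h2 h3
    exact orderOf_eq_one_iff.1 (Nat.dvd_one.1 h4)
  have hcard : r ∣ Nat.card (GL (Fin (r - 1)) (ZMod p)) := by
    rw [Matrix.card_GL_field, ZMod.card]
    have h1 : r ∣ p ^ (r - 1) - p ^ 0 := by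
      rw [pow_zero]
      have h2 : (((p ^ (r - 1) - 1 : ℕ)) : ZMod r) = 0 := by
        rw [Nat.cast_sub (Nat.one_le_pow _ _ (by omega))]
        push_cast
        rw [← hp, pow_orderOf_eq_one, sub_self]
      exact (ZMod.natCast_eq_zero_iff _ _).1 h2
    have h3 := Finset.dvd_prod_of_mem (fun i : Fin (r - 1) => p ^ (r - 1) - p ^ (i : ℕ))
      (Finset.mem_univ (⟨0, by omega⟩ : Fin (r - 1)))
    exact h1.trans h3
  obtain ⟨x, hx⟩ := exists_prime_orderOf_dvd_card' r hcard
  have hxr : x ^ r = 1 := orderOf_dvd_iff_pow_eq_one.1 (by rw [hx])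
  have hxr' : (x : Matrix (Fin (r - 1)) (Fin (r - 1)) (ZMod p)) ^ r = 1 := by
    have := congrArg (fun y : GL (Fin (r - 1)) (ZMod p) =>
      (y : Matrix (Fin (r - 1)) (Fin (r - 1)) (ZMod p))) hxr
    simpa using this
  have hdet : (x : Matrix (Fin (r - 1)) (Fin (r - 1)) (ZMod p)).det = 1 := by
    apply hunit
    rw [← det_pow, hxr', det_one]
  let g : SpecialLinearGroup (Fin (r - 1)) (ZMod p) := ⟨x, hdet⟩
  refine ⟨g, ?_, ?_⟩
  · apply Subtype.ext
    rw [coe_pow, coe_one]
    exact hxr'
  · intro hc
    obtain ⟨a, _, ha⟩ := mem_center_iff.1 hc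
    have ha' : scalar (Fin (r - 1)) a = (x : Matrix (Fin (r - 1)) (Fin (r - 1)) (ZMod p)) := ha
    have har : a = 1 := by
      apply hunit
      have h1 : scalar (Fin (r - 1)) (a ^ r) = 1 := by
        rw [map_pow, ha', hxr']
      have h2 := congrFun (congrFun h1 ⟨0, by omega⟩) ⟨0, by omega⟩
      simpa using h2
    have hx1 : x = 1 := by
      apply Units.ext
      rw [← ha', har]
      simp
    rw [hx1, orderOf_one] at hx
    omega

end Pool.Agent.Lib.MP_462fed_al
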